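import Mathlib

/-!
# Project IRG (MP_50b9ba_lc): irreducible polynomials with a zero test in NP over the complex numbers and the permanent
(definitions)

Architect helper48.  Variables: `x i` (`i < n`), `z i j` (`i < n`, `j ≤ n`) and `y`.
-/

namespace Pool.Agent.IRG

open MvPolynomial

/-- the variables `x i`, `z i j`, `y` -/
abbrev Vr (n : ℕ) : Type := (Fin n ⊕ (Fin n × Fin (n + 1))) ⊕ Unit

/-- the point with coordinates `x i`, `z i j`, `y` -/
def pt {R : Type} {n : ℕ} (x : Fin n → R) (z : Fin n → Fin (n + 1) → R) (y : R) : Vr n → R :=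
  Sum.elim (Sum.elim x fun p => z p.1 p.2) fun _ => y

/-- the variable `x i` -/
abbrev xv {n : ℕ} (i : Fin n) : Vr n := Sum.inl (Sum.inl i)

/-- the variable `z i j` -/
abbrev zv {n : ℕ} (i : Fin n) (j : Fin (n + 1)) : Vr n := Sum.inl (Sum.inr (i, j))

/-- the variable `y` -/
abbrev yv {n : ℕ} : Vr n := Sum.inr ()

/-- `s 1 ⋯ s n * ∏ i, (z i 0 + ∑ j, z i j * s j)` -/
def q {R : Type} [CommRing R] {n : ℕ} (s : Fin n → R) (z : Fin n → Fin (n + 1) → R) : R :=
  (∏ i, s i) * ∏ i, (z i 0 + ∑ j : Fin n, z i j.succ * s j)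

/-- `1 - y * q (ε x, z)` for signs `ε` -/
noncomputable def lin {n : ℕ} (ε : Fin n → ℤˣ) : MvPolynomial (Vr n) ℂ :=
  1 - X yv * q (fun i => ((ε i : ℤ) : MvPolynomial (Vr n) ℂ) * X (xv i)) fun i j => X (zv i j)

/-- the product over all signs -/
noncomputable def PP (n : ℕ) : MvPolynomial (Vr n) ℂ := ∏ ε : Fin n → ℤˣ, lin ε

/-- substitution `x i ↦ ε i * x i` -/
noncomputable def sgp {n : ℕ} (ε : Fin n → ℤˣ) : MvPolynomial (Vr n) ℂ →ₐ[ℂ] MvPolynomial (Vr n) ℂ :=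
  aeval (pt (fun i => ((ε i : ℤ) : MvPolynomial (Vr n) ℂ) * X (xv i)) (fun i j => X (zv i j)) (X yv))

/-- substitution `x i ↦ (x i)²` -/
noncomputable def sqm {n : ℕ} : MvPolynomial (Vr n) ℂ →ₐ[ℂ] MvPolynomial (Vr n) ℂ :=
  aeval (pt (fun i => X (xv i) ^ 2) (fun i j => X (zv i j)) (X yv))

/-- the permanent of the matrix of variables -/
noncomputable def per (n : ℕ) : MvPolynomial (Fin n × Fin n) ℂ := Matrix.permanent (Matrix.of fun i j => X (i, j))

/-- constants and variables -/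
def Bas {σ : Type} (p : MvPolynomial σ ℂ) : Prop := (∃ c : ℂ, p = C c) ∨ ∃ v : σ, p = X v

/-- `f` is computed with at most `s` operations `+`, `-`, `*` from the variables and arbitrary constants, i.e. `L(f) ≤ s` -/
def Comp {σ : Type} (s : ℕ) (f : MvPolynomial σ ℂ) : Prop :=
  ∃ g : Fin s → MvPolynomial σ ℂ, (Bas f ∨ ∃ i, f = g i) ∧ ∀ i, ∃ a b : MvPolynomial σ ℂ,
    (Bas a ∨ ∃ j < i, a = g j) ∧ (Bas b ∨ ∃ j < i, b = g j) ∧ (g i = a + b ∨ g i = a - b ∨ g i = a * b)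

/-- the value at `x i = 1`, `z i 0 = 0`, `y = 0` as a polynomial in the `z i j`, `j > 0` -/
noncomputable def v0 {n : ℕ} : MvPolynomial (Vr n) ℂ →ₐ[ℂ] MvPolynomial (Fin n × Fin n) ℂ :=
  aeval (pt (fun _ => 1) (fun i j => Fin.cases (motive := fun _ => MvPolynomial (Fin n × Fin n) ℂ) 0 (fun k => X (i, k)) j) 0)

/-- the derivative with respect to `y` at these points -/
noncomputable def v1 {n : ℕ} (f : MvPolynomial (Vr n) ℂ) : MvPolynomial (Fin n × Fin n) ℂ := v0 (pderiv yv f)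

end Pool.Agent.IRG
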