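import Mathlib

/-!
# IRG-Nst: polynomials with the same zeros as an irreducible polynomial (Mathlib only)
-/

namespace Pool.Agent.IRG

open MvPolynomial

private theorem dvd_pow_of_zeros {σ : Type} [Finite σ] {a b : MvPolynomial σ ℂ}
    (h : ∀ w : σ → ℂ, eval w a = 0 → eval w b = 0) : ∃ N : ℕ, a ∣ b ^ N := by
  have h1 : b ∈ vanishingIdeal ℂ (zeroLocus ℂ (Ideal.span {a})) := by
    rw [mem_vanishingIdeal_iff]
    intro x hx
    rw [mem_zeroLocus_iff] at hx
    have h2 := hx a (Ideal.mem_span_singleton_self a)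
    have h3 := h x
    rw [← aeval_eq_eval] at h3
    exact h3 h2
  rw [vanishingIdeal_zeroLocus_eq_radical] at h1
  obtain ⟨N, hN⟩ := h1
  exact ⟨N, Ideal.mem_span_singleton.1 hN⟩

theorem same_zeros {σ : Type} [Finite σ] {G f : MvPolynomial σ ℂ} (hG : Irreducible G)
    (h : ∀ w : σ → ℂ, eval w f = 0 ↔ eval w G = 0) : ∃ c : ℂ, c ≠ 0 ∧ ∃ e : ℕ, 1 ≤ e ∧ f = C c * G ^ e := by
  have hGp : Prime G := hG.prime
  have hf0 : f ≠ 0 := by
    intro h0
    apply hG.ne_zero
    apply MvPolynomial.funext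
    intro w
    rw [map_zero]
    exact (h w).1 (by rw [h0, map_zero])
  have hfin : FiniteMultiplicity G f := FiniteMultiplicity.of_not_isUnit hG.not_isUnit hf0
  obtain ⟨k, hk, hnd⟩ := hfin.exists_eq_pow_mul_and_not_dvd
  have hku : IsUnit k := by
    by_contra hnu
    have hk0 : k ≠ 0 := by
      rintro rfl
      exact hnd (dvd_zero _)
    obtain ⟨p, hp, hpk⟩ := WfDvdMonoid.exists_irreducible_factor hnu hk0
    obtain ⟨N, hN⟩ := dvd_pow_of_zeros (a := p) (b := G) fun w hw => (h w).1 (by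
      obtain ⟨t, ht⟩ := hpk
      rw [hk, ht, map_mul, map_mul, hw, zero_mul, mul_zero])
    have hpG : p ∣ G := hp.prime.dvd_of_dvd_pow hN
    have has : Associated p G := hp.associated_of_dvd hG hpG
    exact hnd (has.symm.dvd.trans hpk)
  obtain ⟨c, hc, hck⟩ : ∃ c : ℂ, c ≠ 0 ∧ k = C c := by
    rw [MvPolynomial.isUnit_iff_eq_C_of_isReduced] at hku
    obtain ⟨c, hc, hck⟩ := hku
    exact ⟨c, hc.ne_zero, hck⟩
  refine ⟨c, hc, multiplicity G f, ?_, ?_⟩
  · by_contra hlt
    have he : multiplicity G f = 0 := by omega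
    rw [he, pow_zero, one_mul] at hk
    obtain ⟨N, hN⟩ := dvd_pow_of_zeros (a := G) (b := 1) fun w hw => by
      have h3 := (h w).2 hw
      rw [hk, hck, eval_C] at h3
      exact absurd h3 hc
    rw [one_pow] at hN
    exact hG.not_isUnit (isUnit_of_dvd_one hN)
  · rw [← hck, mul_comm]
    exact hk

end Pool.Agent.IRG
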