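import Pool.Agent.IRG.Val

/-!
# IRG-Slp: programs for the derivative (imports Val)

PLAN.  Let `g : Fin k → ..` be the program of `f`.  New program: for each `i` four gates: for `g i = a ± b`: `v0 a ± v0 b`, `v1 a ± v1 b` (and two dummies, e.g. repeated); for
`g i = a * b`: `v0 a * v0 b`, `v0 a * v1 b`, `v1 a * v0 b`, the sum of the last two.  Here `v0 a`, `v1 a` for a constant or variable `a` are constants or variables
(`v0_X`, `v1_X`, `v1_C`; `v0 (C c) = C c`), for a gate `a = g j` they are earlier new gates.  It is convenient to prove by induction on `k` a statement about lists: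
define `Prg (l : List (MvPolynomial ..))`: every entry is an operation on base elements or later entries of the list; `Comp s f ↔ ∃ l, Prg l ∧ l.length ≤ s ∧ (Bas f ∨ f ∈ l)` (pad
with dummies `X + 0`-like gates, e.g. `C 0 + C 0`).  Then: `Prg l → ∃ l', Prg l' ∧ l'.length ≤ 4 * l.length ∧ ∀ a, (Bas a ∨ a ∈ l) → (Bas (v0 a) ∨ v0 a ∈ l') ∧ (Bas (v1 a) ∨ v1 a ∈ l')`.
`comp_two`: concatenate the programs of `f` and `h`: `l' ++ m'`, then the difference and the multiplication with the constant: `4 k + 4 l + 2` operations.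
`comp_one`: `4 k + 1`.
-/

namespace Pool.Agent.IRG

open MvPolynomial

section lists

variable {σ : Type}

private def Got (l : List (MvPolynomial σ ℂ)) (a : MvPolynomial σ ℂ) : Prop := Bas a ∨ a ∈ l

private def Prg : List (MvPolynomial σ ℂ) → Prop
  | [] => True
  | p :: l => (∃ a b, Got l a ∧ Got l b ∧ (p = a + b ∨ p = a - b ∨ p = a * b)) ∧ Prg l

private theorem got_mono {l l' : List (MvPolynomial σ ℂ)} (h : ∀ a ∈ l, a ∈ l')
    {a : MvPolynomial σ ℂ} (ha : Got l a) : Got l' a := by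
  rcases ha with ha | ha
  · exact Or.inl ha
  · exact Or.inr (h a ha)

private theorem got_cons {l : List (MvPolynomial σ ℂ)} (p : MvPolynomial σ ℂ)
    {a : MvPolynomial σ ℂ} (ha : Got l a) : Got (p :: l) a :=
  got_mono (fun _ h => List.mem_cons_of_mem p h) ha

private theorem got_head (l : List (MvPolynomial σ ℂ)) (p : MvPolynomial σ ℂ) : Got (p :: l) p :=
  Or.inr List.mem_cons_self

private theorem prg_append {l l' : List (MvPolynomial σ ℂ)} (h : Prg l) (h' : Prg l') :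
    Prg (l ++ l') := by
  induction l with
  | nil => exact h'
  | cons p l ih =>
    obtain ⟨⟨a, b, ha, hb, hp⟩, hl⟩ := h
    refine ⟨⟨a, b, got_mono (fun _ h => List.mem_append_left l' h) ha,
      got_mono (fun _ h => List.mem_append_left l' h) hb, hp⟩, ih hl⟩

private theorem of_comp {s : ℕ} {f : MvPolynomial σ ℂ} (h : Comp s f) :
    ∃ l, Prg l ∧ l.length = s ∧ Got l f := by
  obtain ⟨g, hf, hg⟩ := h
  have key : ∀ k (hk : k ≤ s), ∃ l : List (MvPolynomial σ ℂ), Prg l ∧ l.length = k ∧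
      ∀ i : Fin s, (i : ℕ) < k → g i ∈ l := by
    intro k
    induction k with
    | zero =>
      intro _
      exact ⟨[], trivial, rfl, fun i hi => absurd hi (Nat.not_lt_zero _)⟩
    | succ k ih =>
      intro hk
      obtain ⟨l, h1, h2, h3⟩ := ih (by omega)
      obtain ⟨a, b, ha, hb, hp⟩ := hg ⟨k, by omega⟩
      refine ⟨g ⟨k, by omega⟩ :: l, ⟨⟨a, b, ?_, ?_, hp⟩, h1⟩, by rw [List.length_cons, h2], ?_⟩
      · rcases ha with ha | ⟨j, hj, rfl⟩
        · exact Or.inl ha
        · exact Or.inr (h3 j hj)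
      · rcases hb with hb | ⟨j, hj, rfl⟩
        · exact Or.inl hb
        · exact Or.inr (h3 j hj)
      · intro i hi
        rcases Nat.lt_succ_iff_lt_or_eq.1 hi with h4 | h4
        · exact List.mem_cons_of_mem _ (h3 i h4)
        · have h5 : i = ⟨k, by omega⟩ := Fin.ext h4
          rw [h5]
          exact List.mem_cons_self
  obtain ⟨l, h1, h2, h3⟩ := key s le_rfl
  refine ⟨l, h1, h2, ?_⟩
  rcases hf with hf | ⟨i, rfl⟩
  · exact Or.inl hf
  · exact Or.inr (h3 i i.2)

private theorem prg_fun (l : List (MvPolynomial σ ℂ)) (h : Prg l) :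
    ∃ g : Fin l.length → MvPolynomial σ ℂ, (∀ a ∈ l, ∃ i, a = g i) ∧
      ∀ i, ∃ a b : MvPolynomial σ ℂ, (Bas a ∨ ∃ j < i, a = g j) ∧ (Bas b ∨ ∃ j < i, b = g j) ∧
        (g i = a + b ∨ g i = a - b ∨ g i = a * b) := by
  induction l with
  | nil =>
    refine ⟨fun _ => 0, fun a ha => absurd ha List.not_mem_nil, fun i => ?_⟩
    exact i.elim0
  | cons p l ih =>
    obtain ⟨⟨a, b, ha, hb, hp⟩, hl⟩ := h
    obtain ⟨g, h1, h2⟩ := ih hl
    obtain ⟨G, hG1, hG2⟩ : ∃ G : Fin (l.length + 1) → MvPolynomial σ ℂ,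
        (∀ i : Fin l.length, G i.castSucc = g i) ∧ G (Fin.last l.length) = p :=
      ⟨Fin.snoc (α := fun _ => MvPolynomial σ ℂ) g p, fun i => Fin.snoc_castSucc _ _ _,
        Fin.snoc_last _ _⟩
    refine ⟨G, ?_, ?_⟩
    · intro c hc
      rcases List.mem_cons.1 hc with rfl | hc
      · exact ⟨Fin.last _, hG2.symm⟩
      · obtain ⟨i, rfl⟩ := h1 c hc
        exact ⟨i.castSucc, (hG1 i).symm⟩
    · intro i
      refine Fin.lastCases ?_ (fun i => ?_) i
      · refine ⟨a, b, ?_, ?_, ?_⟩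
        · rcases ha with ha | ha
          · exact Or.inl ha
          · obtain ⟨j, rfl⟩ := h1 a ha
            exact Or.inr ⟨j.castSucc, Fin.castSucc_lt_last j, (hG1 j).symm⟩
        · rcases hb with hb | hb
          · exact Or.inl hb
          · obtain ⟨j, rfl⟩ := h1 b hb
            exact Or.inr ⟨j.castSucc, Fin.castSucc_lt_last j, (hG1 j).symm⟩
        · rw [hG2]
          exact hp
      · obtain ⟨a', b', ha', hb', hp'⟩ := h2 i
        refine ⟨a', b', ?_, ?_, ?_⟩
        · rcases ha' with ha' | ⟨j, hj, rfl⟩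
          · exact Or.inl ha'
          · exact Or.inr ⟨j.castSucc, Fin.castSucc_lt_castSucc_iff.2 hj, (hG1 j).symm⟩
        · rcases hb' with hb' | ⟨j, hj, rfl⟩
          · exact Or.inl hb'
          · exact Or.inr ⟨j.castSucc, Fin.castSucc_lt_castSucc_iff.2 hj, (hG1 j).symm⟩
        · rw [hG1]
          exact hp'

private theorem prg_pad (l : List (MvPolynomial σ ℂ)) (h : Prg l) (d : ℕ) :
    ∃ l', Prg l' ∧ l'.length = l.length + d ∧ ∀ a ∈ l, a ∈ l' := by
  induction d with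
  | zero => exact ⟨l, h, rfl, fun _ h => h⟩
  | succ d ih =>
    obtain ⟨l', h1, h2, h3⟩ := ih
    refine ⟨(C 0 + C 0) :: l', ⟨⟨C 0, C 0, Or.inl (Or.inl ⟨0, rfl⟩), Or.inl (Or.inl ⟨0, rfl⟩),
      Or.inl rfl⟩, h1⟩, ?_, fun a ha => List.mem_cons_of_mem _ (h3 a ha)⟩
    rw [List.length_cons, h2]
    omega

private theorem to_comp {s : ℕ} {f : MvPolynomial σ ℂ} (l : List (MvPolynomial σ ℂ)) (h : Prg l)
    (hl : l.length ≤ s) (hf : Got l f) : Comp s f := by
  obtain ⟨l', h1, h2, h3⟩ := prg_pad l h (s - l.length)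
  have h4 : l'.length = s := by omega
  subst h4
  obtain ⟨g, h5, h6⟩ := prg_fun l' h1
  refine ⟨g, ?_, h6⟩
  rcases hf with hf | hf
  · exact Or.inl hf
  · exact Or.inr (h5 f (h3 f hf))

end lists

private theorem bas_v {n : ℕ} {a : MvPolynomial (Vr n) ℂ} (h : Bas a) : Bas (v0 a) ∧ Bas (v1 a) := by
  rcases h with ⟨c, rfl⟩ | ⟨v, rfl⟩
  · refine ⟨Or.inl ⟨c, ?_⟩, Or.inl ⟨0, ?_⟩⟩
    · exact (v0 (n := n)).commutes c
    · rw [v1_C, C_0]
  · refine ⟨v0_X v, ?_⟩
    rcases v1_X v with h | h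
    · exact Or.inl ⟨0, by rw [h, C_0]⟩
    · exact Or.inl ⟨1, by rw [h, C_1]⟩

private theorem prg_v {n : ℕ} (l : List (MvPolynomial (Vr n) ℂ)) (h : Prg l) :
    ∃ l', Prg l' ∧ l'.length ≤ 4 * l.length ∧ ∀ a, Got l a → Got l' (v0 a) ∧ Got l' (v1 a) := by
  induction l with
  | nil =>
    refine ⟨[], trivial, le_rfl, ?_⟩
    intro a ha
    rcases ha with ha | ha
    · exact ⟨Or.inl (bas_v ha).1, Or.inl (bas_v ha).2⟩
    · exact absurd ha List.not_mem_nil
  | cons p l ih =>
    obtain ⟨⟨a, b, ha, hb, hp⟩, hl⟩ := h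
    obtain ⟨l', h1, h2, h3⟩ := ih hl
    obtain ⟨ha0, ha1⟩ := h3 a ha
    obtain ⟨hb0, hb1⟩ := h3 b hb
    suffices hmain : ∃ l'', Prg l'' ∧ l''.length ≤ l'.length + 4 ∧ (∀ a ∈ l', a ∈ l'') ∧
        Got l'' (v0 p) ∧ Got l'' (v1 p) by
      obtain ⟨l'', h4, h5, h6, h7, h8⟩ := hmain
      refine ⟨l'', h4, ?_, ?_⟩
      · rw [List.length_cons]
        omega
      · intro c hc
        by_cases hcp : c = p
        · rw [hcp]
          exact ⟨h7, h8⟩
        · have hc' : Got l c := by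
            rcases hc with hc | hc
            · exact Or.inl hc
            · rcases List.mem_cons.1 hc with hc | hc
              · exact absurd hc hcp
              · exact Or.inr hc
          exact ⟨got_mono h6 (h3 c hc').1, got_mono h6 (h3 c hc').2⟩
    rcases hp with hp | hp | hp
    · refine ⟨(v1 a + v1 b) :: (v0 a + v0 b) :: l', ⟨⟨_, _, got_cons _ ha1, got_cons _ hb1,
        Or.inl rfl⟩, ⟨_, _, ha0, hb0, Or.inl rfl⟩, h1⟩, ?_, ?_, ?_, ?_⟩
      · simp only [List.length_cons]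
        omega
      · intro c hc
        exact List.mem_cons_of_mem _ (List.mem_cons_of_mem _ hc)
      · rw [hp, map_add]
        exact got_cons _ (got_head _ _)
      · rw [hp, v1_add]
        exact got_head _ _
    · refine ⟨(v1 a - v1 b) :: (v0 a - v0 b) :: l', ⟨⟨_, _, got_cons _ ha1, got_cons _ hb1,
        Or.inr (Or.inl rfl)⟩, ⟨_, _, ha0, hb0, Or.inr (Or.inl rfl)⟩, h1⟩, ?_, ?_, ?_, ?_⟩
      · simp only [List.length_cons]
        omega
      · intro c hc
        exact List.mem_cons_of_mem _ (List.mem_cons_of_mem _ hc)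
      · rw [hp, map_sub]
        exact got_cons _ (got_head _ _)
      · rw [hp, v1_sub]
        exact got_head _ _
    · refine ⟨(v0 a * v1 b + v1 a * v0 b) :: (v1 a * v0 b) :: (v0 a * v1 b) :: (v0 a * v0 b) :: l',
        ⟨⟨_, _, got_cons _ (got_head _ _), got_head _ _, Or.inl rfl⟩,
          ⟨_, _, got_cons _ (got_cons _ ha1), got_cons _ (got_cons _ hb0), Or.inr (Or.inr rfl)⟩,
          ⟨_, _, got_cons _ ha0, got_cons _ hb1, Or.inr (Or.inr rfl)⟩,
          ⟨_, _, ha0, hb0, Or.inr (Or.inr rfl)⟩, h1⟩, ?_, ?_, ?_, ?_⟩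
      · simp only [List.length_cons]
        omega
      · intro c hc
        exact List.mem_cons_of_mem _ (List.mem_cons_of_mem _ (List.mem_cons_of_mem _
          (List.mem_cons_of_mem _ hc)))
      · rw [hp, map_mul]
        exact got_cons _ (got_cons _ (got_cons _ (got_head _ _)))
      · rw [hp, v1_mul]
        exact got_head _ _

theorem comp_one {n k : ℕ} {f : MvPolynomial (Vr n) ℂ} (hf : Comp k f) (c : ℂ) :
    Comp (4 * k + 1) (C c * v1 f) := by
  obtain ⟨l, h1, h2, h3⟩ := of_comp hf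
  obtain ⟨l', h4, h5, h6⟩ := prg_v l h1
  refine to_comp ((C c * v1 f) :: l') ⟨⟨C c, v1 f, Or.inl (Or.inl ⟨c, rfl⟩), (h6 f h3).2,
    Or.inr (Or.inr rfl)⟩, h4⟩ ?_ (got_head _ _)
  rw [List.length_cons]
  omega

theorem comp_two {n k l : ℕ} {f h : MvPolynomial (Vr n) ℂ} (hf : Comp k f) (hh : Comp l h) (c : ℂ) :
    Comp (4 * k + 4 * l + 2) (C c * (v1 h - v1 f)) := by
  obtain ⟨u, h1, h2, h3⟩ := of_comp hf
  obtain ⟨u', h4, h5, h6⟩ := prg_v u h1
  obtain ⟨w, h7, h8, h9⟩ := of_comp hh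
  obtain ⟨w', h10, h11, h12⟩ := prg_v w h7
  refine to_comp ((C c * (v1 h - v1 f)) :: (v1 h - v1 f) :: (u' ++ w'))
    ⟨⟨C c, v1 h - v1 f, Or.inl (Or.inl ⟨c, rfl⟩), got_head _ _, Or.inr (Or.inr rfl)⟩,
      ⟨v1 h, v1 f, got_mono (fun _ hm => List.mem_append_right u' hm) (h12 h h9).2,
        got_mono (fun _ hm => List.mem_append_left w' hm) (h6 f h3).2, Or.inr (Or.inl rfl)⟩,
      prg_append h4 h10⟩ ?_ (got_head _ _)
  simp only [List.length_cons, List.length_append]
  omega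

end Pool.Agent.IRG
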