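import Pool.Agent.IRG.Defs

/-!
# IRG-Zero: the zeros (imports Defs)
-/

namespace Pool.Agent.IRG

open MvPolynomial

theorem eval_sqm {n : ℕ} (s : Fin n → ℂ) (z : Fin n → Fin (n + 1) → ℂ) (y : ℂ) (Q : MvPolynomial (Vr n) ℂ) :
    eval (pt s z y) (sqm Q) = eval (pt (fun i => s i ^ 2) z y) Q := by
  have h : (aeval (pt s z y)).comp sqm = (aeval (pt (fun i => s i ^ 2) z y) : MvPolynomial (Vr n) ℂ →ₐ[ℂ] ℂ) := by
    apply MvPolynomial.algHom_ext
    intro v
    rw [AlgHom.comp_apply, aeval_X]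
    unfold sqm
    rw [aeval_X]
    rcases v with (i | p) | u
    · change aeval (pt s z y) (X (xv i) ^ 2) = s i ^ 2
      rw [map_pow, aeval_X]
      rfl
    · change aeval (pt s z y) (X (zv p.1 p.2)) = z p.1 p.2
      rw [aeval_X]
      rfl
    · change aeval (pt s z y) (X yv) = y
      rw [aeval_X]
      rfl
  have h2 := DFunLike.congr_fun h Q
  rw [AlgHom.comp_apply] at h2
  exact h2

theorem eval_lin {n : ℕ} (ε : Fin n → ℤˣ) (s : Fin n → ℂ) (z : Fin n → Fin (n + 1) → ℂ) (y : ℂ) :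
    eval (pt s z y) (lin ε) = 1 - y * q (fun i => ((ε i : ℤ) : ℂ) * s i) z := by
  unfold lin q
  simp only [map_sub, map_one, map_mul, map_prod, map_add, map_sum, eval_X, map_intCast]
  rfl

theorem zero_iff {n : ℕ} {G : MvPolynomial (Vr n) ℂ} (hG : sqm G = PP n) (x : Fin n → ℂ)
    (z : Fin n → Fin (n + 1) → ℂ) (y : ℂ) :
    eval (pt x z y) G = 0 ↔ ∃ s : Fin n → ℂ, (∀ i, s i ^ 2 = x i) ∧ y * q s z = 1 := by
  have key : ∀ s : Fin n → ℂ, (∀ i, s i ^ 2 = x i) →
      eval (pt x z y) G = ∏ ε : Fin n → ℤˣ, (1 - y * q (fun i => ((ε i : ℤ) : ℂ) * s i) z) := by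
    intro s hs
    have h1 := eval_sqm s z y G
    rw [hG] at h1
    have h2 : (fun i => s i ^ 2) = x := funext hs
    rw [h2] at h1
    rw [← h1]
    unfold PP
    rw [map_prod]
    exact Finset.prod_congr rfl fun ε _ => eval_lin ε s z y
  constructor
  · intro h0
    have hex : ∀ i, ∃ t : ℂ, t ^ 2 = x i := fun i => IsAlgClosed.exists_pow_nat_eq (x i) (by norm_num)
    choose s hs using hex
    rw [key s hs, Finset.prod_eq_zero_iff] at h0
    obtain ⟨ε, -, hε⟩ := h0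
    refine ⟨fun i => ((ε i : ℤ) : ℂ) * s i, fun i => ?_, (sub_eq_zero.1 hε).symm⟩
    rw [mul_pow, hs]
    rcases Int.units_eq_one_or (ε i) with h | h
    · rw [h]; norm_num
    · rw [h]; norm_num
  · rintro ⟨s, hs, hy⟩
    rw [key s hs, Finset.prod_eq_zero_iff]
    refine ⟨1, Finset.mem_univ _, ?_⟩
    have h1 : (fun i => (((1 : Fin n → ℤˣ) i : ℤ) : ℂ) * s i) = s := by
      funext i
      simp
    rw [h1, hy, sub_self]

end Pool.Agent.IRG
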