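import Pool.Agent.IRG.Irr
import Pool.Agent.IRG.Zero
import Pool.Agent.IRG.Nst
import Pool.Agent.IRG.Slp

/-!
# IRG-Final: assembly (imports Irr, Zero, Nst, Slp)
-/

namespace Pool.Agent.IRG

open MvPolynomial

theorem final : ∃ G : ∀ n : ℕ, MvPolynomial (Vr n) ℂ, ∀ n : ℕ, Irreducible (G n) ∧
    (∀ (x : Fin n → ℂ) (z : Fin n → Fin (n + 1) → ℂ) (y : ℂ), eval (pt x z y) (G n) = 0 ↔
      ∃ s : Fin n → ℂ, (∀ i, s i ^ 2 = x i) ∧
        y * ((∏ i, s i) * ∏ i, (z i 0 + ∑ j : Fin n, z i j.succ * s j)) = 1) ∧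
    (∀ (k : ℕ) (f : MvPolynomial (Vr n) ℂ), Comp k f → (∀ w, eval w f = 0 ↔ eval w (G n) = 0) →
      Comp (4 * k + 1) (per n)) ∧
    ∀ (k l e : ℕ) (f h : MvPolynomial (Vr n) ℂ), 1 ≤ e → f = G n ^ e * h → Comp k f → Comp l h →
      Comp (4 * k + 4 * l + 2) (per n * v0 h) := by
  have hex : ∀ n : ℕ, ∃ G : MvPolynomial (Vr n) ℂ, sqm G = PP n := fun n => exists_sq fun ε => sgp_PP ε
  choose G hG using hex
  refine ⟨G, fun n => ⟨irr (hG n), zero_iff (hG n), ?_, ?_⟩⟩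
  · intro k f hf hz
    obtain ⟨c, hc, e, he, hfe⟩ := same_zeros (irr (hG n)) hz
    have he0 : (e : ℂ) ≠ 0 := Nat.cast_ne_zero.2 (by omega)
    have h2 : (2 : ℂ) ^ n ≠ 0 := pow_ne_zero _ two_ne_zero
    have h1 := comp_one hf (-(c * ((e : ℂ) * 2 ^ n))⁻¹)
    have h3 : C (-(c * ((e : ℂ) * 2 ^ n))⁻¹) * v1 f = per n := by
      have h4 : f = G n ^ e * C c := by rw [hfe, mul_comm]
      rw [h4, v1_pow_mul (hG n), v1_C, zero_sub]
      have h5 : v0 (C c : MvPolynomial (Vr n) ℂ) = C c := by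
        unfold v0
        rw [aeval_C]
        rfl
      rw [h5]
      have h6 : C (-(c * ((e : ℂ) * 2 ^ n))⁻¹) * -(C ((e : ℂ) * 2 ^ n) * (per n * C c)) =
          C ((-(c * ((e : ℂ) * 2 ^ n))⁻¹) * (-(((e : ℂ) * 2 ^ n) * c))) * per n := by
        simp only [map_mul, map_neg]
        ring
      rw [h6]
      have h7 : (-(c * ((e : ℂ) * 2 ^ n))⁻¹) * (-(((e : ℂ) * 2 ^ n) * c)) = 1 := by
        field_simp
      rw [h7, C_1, one_mul]
    rw [h3] at h1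
    exact h1
  · intro k l e f h he hfh hf hh
    have he0 : (e : ℂ) ≠ 0 := Nat.cast_ne_zero.2 (by omega)
    have h2 : (2 : ℂ) ^ n ≠ 0 := pow_ne_zero _ two_ne_zero
    have h1 := comp_two hf hh (((e : ℂ) * 2 ^ n)⁻¹)
    have h3 : C (((e : ℂ) * 2 ^ n)⁻¹) * (v1 h - v1 f) = per n * v0 h := by
      rw [hfh, v1_pow_mul (hG n), sub_sub_cancel, ← mul_assoc, ← C_mul]
      have h7 : ((e : ℂ) * 2 ^ n)⁻¹ * ((e : ℂ) * 2 ^ n) = 1 := by
        field_simp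
      rw [h7, C_1, one_mul]
    rw [h3] at h1
    exact h1

end Pool.Agent.IRG
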