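import Pool.Agent.IRG.Defs

/-!
# IRG-Gly: Glynn's formula (imports Defs)

PLAN.  Expand `∏ i, ∑ j, M i j * ε j = ∑ (t : Fin n → Fin n), ∏ i, M i (t i) * ∏ i, ε (t i)` (`Finset.prod_univ_sum`, `Fintype.piFinset_univ`) and exchange the
sums: the coefficient of `∏ i, M i (t i)` is `∑ ε, ∏ j, ε j * ∏ i, ε (t i)`.  If `t` is not surjective, some `j₀` is not in its range, and `ε ↦ ε` with the sign at `j₀` changed is
an involution which changes the sign of the summand: the sum is `0` (e.g. `Finset.sum_involution`, or factor the sum as a product over `j` of `∑ (u : ℤˣ), u ^ (1 + #{i | t i = j})`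
by `Finset.prod_univ_sum`).  If `t` is bijective every summand is `(∏ ε) ^ 2 = 1` and there are `2 ^ n` of them.  `Matrix.permanent M = ∑ σ : Equiv.Perm (Fin n), ∏ i, M (σ i) i`; it
is also `∑ σ, ∏ i, M i (σ i)` (`σ ↦ σ⁻¹`; or `Matrix.permanent_transpose`).
-/

namespace Pool.Agent.IRG

private theorem gly_zero {R : Type} [CommRing R] {n : ℕ} (t : Fin n → Fin n)
    (ht : ¬ Function.Surjective t) :
    ∑ ε : Fin n → ℤˣ, (∏ i, ((ε i : ℤ) : R)) * ∏ i, ((ε (t i) : ℤ) : R) = 0 := by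
  classical
  obtain ⟨j₀, hj₀⟩ : ∃ j, ∀ i, t i ≠ j := by
    unfold Function.Surjective at ht
    push Not at ht
    exact ht
  have h1 : ∀ ε : Fin n → ℤˣ, (∏ i, ((ε i : ℤ) : R)) * ∏ i, ((ε (t i) : ℤ) : R) =
      ∏ j, (((ε j : ℤ) : R) * ∏ _i ∈ Finset.univ.filter (fun i => t i = j), ((ε j : ℤ) : R)) := by
    intro ε
    rw [Finset.prod_mul_distrib]
    refine congrArg (fun z => (∏ i, ((ε i : ℤ) : R)) * z) ?_
    rw [← Finset.prod_fiberwise Finset.univ t]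
    refine Finset.prod_congr rfl fun j _ => Finset.prod_congr rfl fun i hi => ?_
    rw [(Finset.mem_filter.1 hi).2]
  have h2 : ∑ ε : Fin n → ℤˣ,
      ∏ j, (((ε j : ℤ) : R) * ∏ _i ∈ Finset.univ.filter (fun i => t i = j), ((ε j : ℤ) : R)) =
      ∏ j, ∑ u : ℤˣ, (((u : ℤ) : R) * ∏ _i ∈ Finset.univ.filter (fun i => t i = j),
        ((u : ℤ) : R)) := by
    rw [Finset.prod_univ_sum, Fintype.piFinset_univ]
  rw [Finset.sum_congr rfl fun ε _ => h1 ε, h2]
  refine Finset.prod_eq_zero (Finset.mem_univ j₀) ?_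
  have h3 : Finset.univ.filter (fun i => t i = j₀) = ∅ :=
    Finset.filter_eq_empty_iff.2 fun i _ => hj₀ i
  rw [h3]
  simp only [Finset.prod_empty, mul_one]
  rw [UnitsInt.univ, Finset.sum_pair (by decide)]
  simp

private theorem gly_perm {R : Type} [CommRing R] {n : ℕ} (σ : Equiv.Perm (Fin n)) :
    ∑ ε : Fin n → ℤˣ, (∏ i, ((ε i : ℤ) : R)) * ∏ i, ((ε (σ i) : ℤ) : R) = 2 ^ n := by
  have h1 : ∀ ε : Fin n → ℤˣ, (∏ i, ((ε i : ℤ) : R)) * ∏ i, ((ε (σ i) : ℤ) : R) = 1 := by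
    intro ε
    rw [Equiv.prod_comp σ (fun i => ((ε i : ℤ) : R)), ← Finset.prod_mul_distrib]
    refine Finset.prod_eq_one fun i _ => ?_
    rcases Int.units_eq_one_or (ε i) with h | h
    · rw [h]
      simp
    · rw [h]
      simp
  rw [Finset.sum_congr rfl fun ε _ => h1 ε, Finset.sum_const, Finset.card_univ, Fintype.card_fun,
    Fintype.card_units_int, Fintype.card_fin, nsmul_one]
  push_cast
  rfl

theorem glynn {R : Type} [CommRing R] {n : ℕ} (M : Fin n → Fin n → R) :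
    ∑ ε : Fin n → ℤˣ, (∏ i, ((ε i : ℤ) : R)) * ∏ i, ∑ j, M i j * ((ε j : ℤ) : R) =
      2 ^ n * Matrix.permanent (Matrix.of M) := by
  classical
  have h1 : ∀ ε : Fin n → ℤˣ, (∏ i, ((ε i : ℤ) : R)) * ∏ i, ∑ j, M i j * ((ε j : ℤ) : R) =
      ∑ t : Fin n → Fin n, (∏ i, M i (t i)) *
        ((∏ i, ((ε i : ℤ) : R)) * ∏ i, ((ε (t i) : ℤ) : R)) := by
    intro ε
    rw [Finset.prod_univ_sum, Fintype.piFinset_univ, Finset.mul_sum]
    refine Finset.sum_congr rfl fun t _ => ?_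
    rw [Finset.prod_mul_distrib]
    ring
  rw [Finset.sum_congr rfl fun ε _ => h1 ε, Finset.sum_comm]
  have h2 : ∀ t : Fin n → Fin n, ∑ ε : Fin n → ℤˣ, (∏ i, M i (t i)) *
      ((∏ i, ((ε i : ℤ) : R)) * ∏ i, ((ε (t i) : ℤ) : R)) = (∏ i, M i (t i)) *
      ∑ ε : Fin n → ℤˣ, (∏ i, ((ε i : ℤ) : R)) * ∏ i, ((ε (t i) : ℤ) : R) := by
    intro t
    rw [Finset.mul_sum]
  rw [Finset.sum_congr rfl fun t _ => h2 t]
  have h3 : ∑ σ : Equiv.Perm (Fin n), 2 ^ n * ∏ i, M i (σ i) =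
      ∑ t : Fin n → Fin n, (∏ i, M i (t i)) *
      ∑ ε : Fin n → ℤˣ, (∏ i, ((ε i : ℤ) : R)) * ∏ i, ((ε (t i) : ℤ) : R) := by
    refine Finset.sum_of_injOn (fun σ : Equiv.Perm (Fin n) => (σ : Fin n → Fin n)) ?_ ?_ ?_ ?_
    · intro σ _ τ _ h
      exact Equiv.coe_fn_injective h
    · intro σ _
      exact Finset.mem_coe.2 (Finset.mem_univ _)
    · intro t _ ht
      rw [gly_zero t, mul_zero]
      intro hs
      apply ht
      have hb : Function.Bijective t := ⟨Finite.injective_iff_surjective.2 hs, hs⟩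
      exact ⟨Equiv.ofBijective t hb, Finset.mem_coe.2 (Finset.mem_univ _), rfl⟩
    · intro σ _
      rw [gly_perm σ, mul_comm]
  rw [← h3, ← Finset.mul_sum]
  refine congrArg (fun z => 2 ^ n * z) ?_
  rw [← Matrix.permanent_transpose]
  rfl

end Pool.Agent.IRG
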