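import Pool.Agent.IRG.Defs

/-!
# IRG-Lin: the factors (imports Defs)

PLAN.  `sgp_lin`: `sgp δ` is an algebra map, apply it to `lin ε` (`map_sub`, `map_mul`, `map_prod`, `map_sum`, `map_intCast`, `aeval_X`, `pt`), signs commute.
`sgp_PP`: `map_prod`, reindex by `Equiv.mulLeft δ`.
`lin_irr`: `lin ε = 1 - y * Q`, `Q ≠ 0` does not contain `y`.  Not a unit: units are constants (total degree `0`; or evaluate: it has a zero).  If `lin ε = a * b`: the degrees in
`y` (`degreeOf yv`, additive for nonzero polynomials over a domain, `degreeOf_mul_eq` or similar) add up to `1`, so one factor, say `a`, does not contain `y`; put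
`y = 0` (an `aeval`): `a * b(y = 0) = 1`, so `a` is a unit.
`lin_assoc`: `lin ε' = C u * lin ε`; put `y = 0`: `u = 1`; so `lin ε = lin ε'`, the two products `q` are equal.  Evaluate (or compare coefficients) at `x = 1`, `z i 0 = 1`,
`z i j = 0` (`j > 0`): `∏ ε = ∏ ε'`; at the same point but `z 0 (j+1) = t`... : for a fixed row `i₀` and `z i₀ (j₀ + 1) = 1`, `z i₀ 0 = 0`, other rows `z i 0 = 1`, rest `0`:
`(∏ ε) * ε j₀ = (∏ ε') * ε' j₀`, so `ε j₀ = ε' j₀` (if `n = 0` all `ε` are equal).
-/

namespace Pool.Agent.IRG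

open MvPolynomial

theorem sgp_lin {n : ℕ} (δ ε : Fin n → ℤˣ) : sgp δ (lin ε) = lin (δ * ε) := by
  have hx : ∀ i : Fin n, sgp δ (X (xv i)) = ((δ i : ℤ) : MvPolynomial (Vr n) ℂ) * X (xv i) := by
    intro i
    unfold sgp
    rw [aeval_X]
    rfl
  have hz : ∀ (i : Fin n) (j : Fin (n + 1)), sgp δ (X (zv i j)) = X (zv i j) := by
    intro i j
    unfold sgp
    rw [aeval_X]
    rfl
  have hy : sgp δ (X yv) = X yv := by
    unfold sgp
    rw [aeval_X]
    rfl
  have hs : ∀ i : Fin n, ((ε i : ℤ) : MvPolynomial (Vr n) ℂ) *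
      (((δ i : ℤ) : MvPolynomial (Vr n) ℂ) * X (xv i)) =
      ((((δ * ε) i : ℤˣ) : ℤ) : MvPolynomial (Vr n) ℂ) * X (xv i) := by
    intro i
    rw [Pi.mul_apply, Units.val_mul, Int.cast_mul]
    ring
  unfold lin q
  simp only [map_sub, map_one, map_mul, map_prod, map_add, map_sum, map_intCast, hx, hz, hy, hs]

theorem sgp_PP {n : ℕ} (δ : Fin n → ℤˣ) : sgp δ (PP n) = PP n := by
  unfold PP
  rw [map_prod]
  refine Fintype.prod_equiv (Equiv.mulLeft δ) _ _ fun ε => ?_
  rw [sgp_lin]
  rfl

/-- polynomials in `y` with coefficients in the ring itself -/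
private noncomputable def th {n : ℕ} :
    MvPolynomial (Vr n) ℂ →ₐ[ℂ] Polynomial (MvPolynomial (Vr n) ℂ) :=
  aeval (pt (fun i => Polynomial.C (X (xv i))) (fun i j => Polynomial.C (X (zv i j)))
    Polynomial.X)

private theorem th_x {n : ℕ} (i : Fin n) : th (X (xv i)) = Polynomial.C (X (xv i)) := by
  unfold th
  rw [aeval_X]
  rfl

private theorem th_z {n : ℕ} (i : Fin n) (j : Fin (n + 1)) :
    th (X (zv i j)) = Polynomial.C (X (zv i j)) := by
  unfold th
  rw [aeval_X]
  rfl

private theorem th_y {n : ℕ} : th (X (yv (n := n))) = Polynomial.X := by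
  unfold th
  rw [aeval_X]
  rfl

private theorem th_lin {n : ℕ} (ε : Fin n → ℤˣ) : th (lin ε) =
    1 - Polynomial.X * Polynomial.C (q (fun i => ((ε i : ℤ) : MvPolynomial (Vr n) ℂ) * X (xv i))
      fun i j => X (zv i j)) := by
  unfold lin q
  simp only [map_sub, map_one, map_mul, map_prod, map_add, map_sum, map_intCast, th_x, th_z, th_y]

private theorem th_ev {n : ℕ} (a : MvPolynomial (Vr n) ℂ) :
    (th a).eval (X (yv (n := n))) = a := by
  have h : (Polynomial.evalRingHom (X (yv (n := n)))).comp (th (n := n)).toRingHom =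
      RingHom.id (MvPolynomial (Vr n) ℂ) := by
    refine MvPolynomial.ringHom_ext (fun r => ?_) (fun v => ?_)
    · show (th (C r)).eval (X (yv (n := n))) = C r
      unfold th
      rw [← MvPolynomial.algebraMap_eq, AlgHom.commutes,
        IsScalarTower.algebraMap_apply ℂ (MvPolynomial (Vr n) ℂ)
          (Polynomial (MvPolynomial (Vr n) ℂ)) r, Polynomial.algebraMap_eq, Polynomial.eval_C]
    · show (th (X v)).eval (X (yv (n := n))) = X v
      rcases v with (i | ⟨i, j⟩) | ⟨⟩
      · rw [th_x, Polynomial.eval_C]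
      · rw [th_z, Polynomial.eval_C]
      · rw [th_y, Polynomial.eval_X]
  exact RingHom.congr_fun h a

/-- elements without `y` -/
private theorem th_cst {n : ℕ} {a : MvPolynomial (Vr n) ℂ} (h : (th a).natDegree = 0) :
    a = (th a).eval 0 := by
  have h1 := Polynomial.eq_C_of_natDegree_eq_zero h
  have h2 := th_ev a
  rw [h1, Polynomial.eval_C] at h2
  rw [h1, Polynomial.eval_C, h2]

private theorem th_lin0 {n : ℕ} (ε : Fin n → ℤˣ) : (th (lin ε)).eval 0 = 1 := by
  rw [th_lin]
  simp

private theorem lin_ev {n : ℕ} (ε : Fin n → ℤˣ) (x : Fin n → ℂ) (z : Fin n → Fin (n + 1) → ℂ)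
    (y : ℂ) : eval (pt x z y) (lin ε) = 1 - y * q (fun i => ((ε i : ℤ) : ℂ) * x i) z := by
  have hx : ∀ i : Fin n, eval (pt x z y) (X (xv i)) = x i := by
    intro i
    rw [eval_X]
    rfl
  have hz : ∀ (i : Fin n) (j : Fin (n + 1)), eval (pt x z y) (X (zv i j)) = z i j := by
    intro i j
    rw [eval_X]
    rfl
  have hy : eval (pt x z y) (X yv) = y := by
    rw [eval_X]
    rfl
  unfold lin q
  simp only [map_sub, map_one, map_mul, map_prod, map_add, map_sum, map_intCast, hx, hz, hy]

theorem lin_irr {n : ℕ} (ε : Fin n → ℤˣ) : Irreducible (lin ε) := by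
  have hone : ∀ i : Fin n, ((ε i : ℤ) : ℂ) * ((ε i : ℤ) : ℂ) = 1 := by
    intro i
    have h1 : ((ε i : ℤ)) * ((ε i : ℤ)) = 1 := by
      rcases Int.units_eq_one_or (ε i) with h | h <;> simp [h]
    exact_mod_cast h1
  have hzero : eval (pt (fun i => ((ε i : ℤ) : ℂ)) (fun _ j => if j = 0 then (1 : ℂ) else 0)
      (1 : ℂ)) (lin ε) = 0 := by
    rw [lin_ev]
    unfold q
    simp [hone, Fin.succ_ne_zero]
  have hne : lin ε ≠ 0 := by
    intro h
    have h1 := th_lin0 ε
    rw [h, map_zero, Polynomial.eval_zero] at h1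
    exact zero_ne_one h1
  have key : ∀ a b : MvPolynomial (Vr n) ℂ, lin ε = a * b → (th a).natDegree = 0 → IsUnit a := by
    intro a b hab ha
    have h1 := th_lin0 ε
    rw [hab, map_mul, Polynomial.eval_mul, ← th_cst ha] at h1
    exact IsUnit.of_mul_eq_one _ h1
  refine ⟨fun hu => ?_, fun {a b} hab => ?_⟩
  · have h1 := hu.map (eval (pt (fun i => ((ε i : ℤ) : ℂ))
      (fun _ j => if j = 0 then (1 : ℂ) else 0) (1 : ℂ)))
    rw [hzero] at h1
    exact not_isUnit_zero h1
  · have hth : th (lin ε) ≠ 0 := by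
      intro h
      have h1 := th_lin0 ε
      rw [h, Polynomial.eval_zero] at h1
      exact zero_ne_one h1
    have hd : (th (lin ε)).natDegree ≤ 1 := by
      rw [th_lin]
      refine (Polynomial.natDegree_sub_le _ _).trans (max_le ?_ ?_)
      · rw [Polynomial.natDegree_one]
        exact zero_le_one
      · refine (Polynomial.natDegree_mul_le).trans ?_
        rw [Polynomial.natDegree_C, add_zero]
        exact Polynomial.natDegree_X_le
    rw [hab, map_mul] at hth hd
    have ha : th a ≠ 0 := left_ne_zero_of_mul hth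
    have hb : th b ≠ 0 := right_ne_zero_of_mul hth
    rw [Polynomial.natDegree_mul ha hb] at hd
    by_cases h0 : (th a).natDegree = 0
    · exact Or.inl (key a b hab h0)
    · exact Or.inr (key b a (by rw [hab, mul_comm]) (by omega))

theorem lin_assoc {n : ℕ} {ε ε' : Fin n → ℤˣ} (h : Associated (lin ε) (lin ε')) : ε = ε' := by
  obtain ⟨u, hu⟩ := h
  have hu0 : (th (u : MvPolynomial (Vr n) ℂ)).natDegree = 0 :=
    Polynomial.natDegree_eq_zero_of_isUnit (u.isUnit.map th)
  have hu1 : (u : MvPolynomial (Vr n) ℂ) = 1 := by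
    have h1 := congrArg (fun a => (th a).eval 0) hu
    simp only [map_mul, Polynomial.eval_mul, th_lin0, one_mul] at h1
    rw [th_cst hu0, h1]
  rw [hu1, mul_one] at hu
  have hq : ∀ (z : Fin n → Fin (n + 1) → ℂ), q (fun i => ((ε i : ℤ) : ℂ)) z =
      q (fun i => ((ε' i : ℤ) : ℂ)) z := by
    intro z
    have h1 := congrArg (eval (pt (fun _ => (1 : ℂ)) z 1)) hu
    rw [lin_ev, lin_ev] at h1
    simp only [mul_one, one_mul] at h1
    linear_combination -h1
  have hprod : (∏ i, ((ε i : ℤ) : ℂ)) = ∏ i, ((ε' i : ℤ) : ℂ) := by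
    have h1 := hq (fun _ j => if j = 0 then (1 : ℂ) else 0)
    unfold q at h1
    simpa [Fin.succ_ne_zero] using h1
  have hne : (∏ i, ((ε i : ℤ) : ℂ)) ≠ 0 := by
    rw [Finset.prod_ne_zero_iff]
    intro i _
    have h1 : ((ε i : ℤ)) ≠ 0 := Units.ne_zero (ε i)
    exact_mod_cast h1
  funext k
  have h1 := hq (fun i j => if i = k then (if j = k.succ then (1 : ℂ) else 0) else
    (if j = 0 then (1 : ℂ) else 0))
  have h2 : ∀ s : Fin n → ℂ, q s (fun i j => if i = k then (if j = k.succ then (1 : ℂ) else 0) else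
      (if j = 0 then (1 : ℂ) else 0)) = (∏ i, s i) * s k := by
    intro s
    unfold q
    congr 1
    have h3 : ∀ i : Fin n, ((fun (i : Fin n) (j : Fin (n + 1)) =>
        if i = k then (if j = k.succ then (1 : ℂ) else 0) else (if j = 0 then (1 : ℂ) else 0)) i 0 +
        ∑ j : Fin n, (fun (i : Fin n) (j : Fin (n + 1)) =>
        if i = k then (if j = k.succ then (1 : ℂ) else 0) else (if j = 0 then (1 : ℂ) else 0)) i
          j.succ * s j) = if i = k then s k else 1 := by
      intro i
      by_cases hi : i = k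
      · simp [hi, (Fin.succ_ne_zero _).symm]
      · simp [hi, Fin.succ_ne_zero]
    rw [Finset.prod_congr rfl (fun i _ => h3 i)]
    simp
  rw [h2, h2, ← hprod] at h1
  have h3 := mul_left_cancel₀ hne h1
  have h4 : (ε k : ℤ) = (ε' k : ℤ) := by exact_mod_cast h3
  exact Units.ext h4

end Pool.Agent.IRG
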