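import Pool.Agent.IRG.Sq
import Pool.Agent.IRG.Lin

/-!
# IRG-Irr: irreducibility (imports Sq, Lin)

`MvPolynomial` over a field is a unique factorisation domain.  `G` is not a unit: else `PP n = sqm G` would be a unit, but it is divisible by
the irreducible `lin 1`.  If `G = A * B` then `sqm A * sqm B = PP n`.  Suppose `A` is not a unit; then `sqm A` is not a unit (`sqm_isUnit`) and not zero, so it has
an irreducible (prime) divisor, which divides `PP n`, hence is associated to some `lin ε`: `lin ε ∣ sqm A`.  Apply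
`sgp δ` (`sgp_sqm`, `sgp_lin`): `lin (δ * ε) ∣ sqm A` for all `δ`, so all `lin ε'` divide `sqm A`; they are pairwise non-associated primes, so their product `PP n` divides
`sqm A`.  So `sqm A = PP n * W = sqm A * sqm B * W`, `sqm B` is a unit, `B` is a unit.
-/

namespace Pool.Agent.IRG

open MvPolynomial

private theorem irr_prod {n : ℕ} (S : MvPolynomial (Vr n) ℂ) (hS : ∀ ε, lin ε ∣ S) :
    PP n ∣ S := by
  unfold PP
  refine Finset.prod_dvd_of_isRelPrime ?_ (fun ε _ => hS ε)
  intro ε _ ε' _ hne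
  show IsRelPrime (lin ε) (lin ε')
  rw [(lin_irr ε).isRelPrime_iff_not_dvd]
  intro hd
  exact hne (lin_assoc ((lin_irr ε).associated_of_dvd (lin_irr ε') hd))

theorem irr {n : ℕ} {G : MvPolynomial (Vr n) ℂ} (hG : sqm G = PP n) : Irreducible G := by
  have hPP0 : PP n ≠ 0 := Finset.prod_ne_zero_iff.2 fun ε _ => (lin_irr ε).ne_zero
  have key : ∀ A B : MvPolynomial (Vr n) ℂ, G = A * B → ¬ IsUnit A → IsUnit B := by
    intro A B hAB hA
    have h1 : sqm A * sqm B = PP n := by rw [← map_mul, ← hAB, hG]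
    have hA0 : sqm A ≠ 0 := by
      intro h
      rw [h, zero_mul] at h1
      exact hPP0 h1.symm
    have hAu : ¬ IsUnit (sqm A) := fun h => hA (sqm_isUnit h)
    obtain ⟨p, hp, hpd⟩ := WfDvdMonoid.exists_irreducible_factor hAu hA0
    have hpP : p ∣ ∏ ε : Fin n → ℤˣ, lin ε := hpd.trans ⟨_, h1.symm⟩
    obtain ⟨ε, -, hε⟩ := hp.prime.exists_mem_finset_dvd hpP
    have has : Associated p (lin ε) := hp.associated_of_dvd (lin_irr ε) hε
    have hd : lin ε ∣ sqm A := has.symm.dvd.trans hpd
    have hall : ∀ ε', lin ε' ∣ sqm A := by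
      intro ε'
      have h2 := map_dvd (sgp (ε' * ε⁻¹)) hd
      rw [sgp_lin, sgp_sqm, inv_mul_cancel_right] at h2
      exact h2
    obtain ⟨W, hW⟩ := irr_prod _ hall
    have h3 : sqm A * (sqm B * W) = sqm A * 1 := by rw [mul_one, ← mul_assoc, h1, ← hW]
    have h4 := mul_left_cancel₀ hA0 h3
    exact sqm_isUnit (IsUnit.of_mul_eq_one _ h4)
  refine ⟨?_, fun A B hAB => ?_⟩
  · intro hu
    have h1 : IsUnit (PP n) := by
      rw [← hG]
      exact hu.map _
    have h2 : lin 1 ∣ PP n := Finset.dvd_prod_of_mem _ (Finset.mem_univ _)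
    exact (lin_irr 1).not_isUnit (isUnit_of_dvd_unit h2 h1)
  · by_cases hA : IsUnit A
    · exact Or.inl hA
    · exact Or.inr (key A B hAB hA)

end Pool.Agent.IRG
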