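import Pool.Agent.IRG.Defs

/-!
# IRG-Sq: polynomials in the squares (imports Defs)

PLAN.  `sqm` maps the monomial with exponent `m` to the monomial with exponent `m'`, `m' (x i) = 2 m (x i)`, equal to `m` elsewhere: injective on
exponents, so `sqm_inj` (compare coefficients: `coeff (dbl m) (sqm Q) = coeff m Q`).  `sgp ε` multiplies the coefficient at `m` with `∏ ε i ^ m (x i)`.  If
`sgp ε P = P` for all `ε` then (take `ε = -1` at `i` and `1` elsewhere) every exponent in the support of `P` is even at all `x i`, so `P` is the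
image of `Q = ∑ m ∈ support, monomial (half m) (coeff m P)`.
`sqm_isUnit`: units are the nonzero constants (`MvPolynomial.isUnit_iff_eq_C_of_isReduced` or via `totalDegree`), `sqm (C c) = C c` and injectivity; or: an inverse
`U` of `sqm Q` is a constant `C u`, `sqm (Q * C u) = 1 = sqm 1`.
-/

namespace Pool.Agent.IRG

open MvPolynomial

private def sqd {n : ℕ} : Vr n → ℕ := Sum.elim (Sum.elim (fun _ => 2) fun _ => 1) fun _ => 1

private lemma sqd_pos {n : ℕ} (v : Vr n) : 0 < sqd v := by
  rcases v with (i | p) | u <;> simp [sqd]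

private noncomputable def dbl {n : ℕ} (m : Vr n →₀ ℕ) : Vr n →₀ ℕ := Finsupp.equivFunOnFinite.symm fun v => sqd v * m v

private lemma dbl_apply {n : ℕ} (m : Vr n →₀ ℕ) (v : Vr n) : dbl m v = sqd v * m v := by
  simp [dbl]

private lemma dbl_inj {n : ℕ} {m m' : Vr n →₀ ℕ} (h : dbl m = dbl m') : m = m' := by
  ext v
  have := DFunLike.congr_fun h v
  rw [dbl_apply, dbl_apply] at this
  exact Nat.eq_of_mul_eq_mul_left (sqd_pos v) this

private noncomputable def hlf {n : ℕ} (m : Vr n →₀ ℕ) : Vr n →₀ ℕ := Finsupp.equivFunOnFinite.symm fun v => m v / sqd v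

private lemma hlf_apply {n : ℕ} (m : Vr n →₀ ℕ) (v : Vr n) : hlf m v = m v / sqd v := by
  simp [hlf]

private lemma sqm_eq {n : ℕ} : sqm (n := n) = aeval (fun v => (X v : MvPolynomial (Vr n) ℂ) ^ sqd v) := by
  unfold sqm
  congr 1
  funext v
  rcases v with (i | p) | u <;> simp [pt, sqd]

private lemma sqm_monomial {n : ℕ} (m : Vr n →₀ ℕ) (c : ℂ) : sqm (monomial m c) = monomial (dbl m) c := by
  rw [sqm_eq, aeval_monomial, monomial_eq, Finsupp.prod_fintype _ _ (fun v => by simp), Finsupp.prod_fintype _ _ (fun v => by simp)]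
  rw [MvPolynomial.algebraMap_eq]
  congr 1
  refine Finset.prod_congr rfl fun v _ => ?_
  rw [dbl_apply, pow_mul]

private lemma coeff_sqm {n : ℕ} (m : Vr n →₀ ℕ) (Q : MvPolynomial (Vr n) ℂ) : coeff (dbl m) (sqm Q) = coeff m Q := by
  classical
  induction Q using MvPolynomial.induction_on' with
  | monomial u a =>
    rw [sqm_monomial, coeff_monomial, coeff_monomial]
    by_cases h : u = m
    · subst h
      simp
    · rw [if_neg h, if_neg fun h' => h (dbl_inj h')]
  | add p q hp hq =>
    rw [map_add, coeff_add, coeff_add, hp, hq]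

theorem sqm_inj {n : ℕ} : Function.Injective (sqm (n := n)) := by
  intro P Q h
  ext m
  rw [← coeff_sqm m P, ← coeff_sqm m Q, h]

private def sgw {n : ℕ} (ε : Fin n → ℤˣ) : Vr n → ℂ := Sum.elim (Sum.elim (fun i => ((ε i : ℤ) : ℂ)) fun _ => 1) fun _ => 1

private lemma sgp_eq {n : ℕ} (ε : Fin n → ℤˣ) : sgp (n := n) ε = aeval (fun v => C (sgw ε v) * (X v : MvPolynomial (Vr n) ℂ)) := by
  unfold sgp
  congr 1
  funext v
  rcases v with (i | p) | u <;> simp [pt, sgw]

private lemma sgp_monomial {n : ℕ} (ε : Fin n → ℤˣ) (m : Vr n →₀ ℕ) (c : ℂ) :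
    sgp ε (monomial m c) = monomial m ((∏ v, sgw ε v ^ m v) * c) := by
  rw [sgp_eq, aeval_monomial, monomial_eq, Finsupp.prod_fintype _ _ (fun v => by simp), Finsupp.prod_fintype _ _ (fun v => by simp)]
  rw [MvPolynomial.algebraMap_eq]
  simp only [mul_pow, Finset.prod_mul_distrib, C_mul, map_prod, C_pow]
  ring

private lemma coeff_sgp {n : ℕ} (ε : Fin n → ℤˣ) (m : Vr n →₀ ℕ) (Q : MvPolynomial (Vr n) ℂ) :
    coeff m (sgp ε Q) = (∏ v, sgw ε v ^ m v) * coeff m Q := by
  classical
  induction Q using MvPolynomial.induction_on' with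
  | monomial u a =>
    rw [sgp_monomial, coeff_monomial, coeff_monomial]
    by_cases h : u = m
    · subst h
      simp
    · rw [if_neg h, if_neg h, mul_zero]
  | add p q hp hq =>
    rw [map_add, coeff_add, coeff_add, hp, hq, mul_add]

private lemma even_of {n : ℕ} {P : MvPolynomial (Vr n) ℂ} (hP : ∀ ε, sgp ε P = P) {m : Vr n →₀ ℕ} (hm : coeff m P ≠ 0) (i : Fin n) :
    Even (m (xv i)) := by
  classical
  have h := coeff_sgp (Function.update (fun _ => (1 : ℤˣ)) i (-1)) m P
  rw [hP] at h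
  have h1 : (∏ v : Vr n, sgw (Function.update (fun _ => (1 : ℤˣ)) i (-1)) v ^ m v) = (-1) ^ m (xv i) := by
    rw [Finset.prod_eq_single (xv i)]
    · simp [sgw, xv]
    · intro v _ hv
      rcases v with (j | p) | u
      · have hj : j ≠ i := fun h' => hv (by rw [h'])
        simp [sgw, Function.update_of_ne hj]
      · simp [sgw]
      · simp [sgw]
    · intro h'
      exact absurd (Finset.mem_univ _) h'
  rw [h1] at h
  rcases Nat.even_or_odd (m (xv i)) with h2 | h2
  · exact h2
  · exfalso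
    rw [h2.neg_one_pow] at h
    apply hm
    have h3 : (2 : ℂ) * coeff m P = 0 := by linear_combination h
    rcases mul_eq_zero.1 h3 with h4 | h4
    · norm_num at h4
    · exact h4

theorem exists_sq {n : ℕ} {P : MvPolynomial (Vr n) ℂ} (hP : ∀ ε, sgp ε P = P) : ∃ Q, sqm Q = P := by
  refine ⟨∑ m ∈ P.support, monomial (hlf m) (coeff m P), ?_⟩
  rw [map_sum]
  conv_rhs => rw [P.as_sum]
  refine Finset.sum_congr rfl fun m hm => ?_
  rw [sqm_monomial]
  have hc : coeff m P ≠ 0 := mem_support_iff.1 hm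
  suffices h : dbl (hlf m) = m by rw [h]
  ext v
  rw [dbl_apply, hlf_apply]
  rcases v with (i | p) | u
  · have he := even_of hP hc i
    show 2 * (m (xv i) / 2) = m (xv i)
    exact Nat.two_mul_div_two_of_even he
  · show 1 * (m _ / 1) = m _
    rw [one_mul, Nat.div_one]
  · show 1 * (m _ / 1) = m _
    rw [one_mul, Nat.div_one]

theorem sgp_sqm {n : ℕ} (ε : Fin n → ℤˣ) (Q : MvPolynomial (Vr n) ℂ) : sgp ε (sqm Q) = sqm Q := by
  classical
  induction Q using MvPolynomial.induction_on' with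
  | monomial u a =>
    rw [sqm_monomial, sgp_monomial]
    have h1 : (∏ v : Vr n, sgw ε v ^ dbl u v) = 1 := by
      refine Finset.prod_eq_one fun v _ => ?_
      rcases v with (j | p) | w
      · rw [dbl_apply]
        show (((ε j : ℤ) : ℂ)) ^ (2 * u _) = 1
        rw [pow_mul]
        have : (((ε j : ℤ) : ℂ)) ^ 2 = 1 := by
          rcases Int.units_eq_one_or (ε j) with h | h <;> rw [h] <;> norm_num
        rw [this, one_pow]
      · simp [sgw]
      · simp [sgw]
    rw [h1, one_mul]
  | add p q hp hq =>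
    rw [map_add, map_add, hp, hq]

theorem sqm_isUnit {n : ℕ} {Q : MvPolynomial (Vr n) ℂ} (h : IsUnit (sqm Q)) : IsUnit Q := by
  rw [MvPolynomial.isUnit_iff_eq_C_of_isReduced] at h
  obtain ⟨r, hr, hQ⟩ := h
  have h1 : sqm (C r : MvPolynomial (Vr n) ℂ) = C r := by
    have := (sqm (n := n)).commutes r
    rwa [MvPolynomial.algebraMap_eq] at this
  rw [← h1] at hQ
  rw [sqm_inj hQ]
  exact hr.map (C : ℂ →+* MvPolynomial (Vr n) ℂ)

end Pool.Agent.IRG
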