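import Pool.Agent.IRG.Gly

/-!
# IRG-Val: value and derivative (imports Gly)

PLAN.  `v0_sqm`: algebra maps which agree on variables (`1 ^ 2 = 1`).  `v1_sqm`: `pderiv yv (sqm Q) = sqm (pderiv yv Q)`: prove it by `MvPolynomial.induction_on` (constants, sums,
products with a variable; `pderiv_mul` / `Derivation.leibniz`), then `v0_sqm`.  `v0_lin = 1`; `v1 (lin ε) = - q (ε) (0 | X)`.  `v1_mul`: Leibniz.  `v1 (PP n) = ∑ ε, v1 (lin ε) = - 2 ^ n * per n` by
`Derivation.leibniz_prod` or induction over the finset with `v0 (lin ε) = 1`, and `glynn`.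
-/

namespace Pool.Agent.IRG

open MvPolynomial

theorem v1_mul {n : ℕ} (f g : MvPolynomial (Vr n) ℂ) : v1 (f * g) = v0 f * v1 g + v1 f * v0 g := by
  unfold v1
  rw [pderiv_mul, map_add, map_mul, map_mul]
  ring

theorem v1_add {n : ℕ} (f g : MvPolynomial (Vr n) ℂ) : v1 (f + g) = v1 f + v1 g := by
  unfold v1
  rw [map_add, map_add]

theorem v1_sub {n : ℕ} (f g : MvPolynomial (Vr n) ℂ) : v1 (f - g) = v1 f - v1 g := by
  unfold v1
  rw [map_sub, map_sub]

theorem v1_C {n : ℕ} (c : ℂ) : v1 (C c : MvPolynomial (Vr n) ℂ) = 0 := by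
  unfold v1
  rw [pderiv_C, map_zero]

private theorem v1_one {n : ℕ} : v1 (1 : MvPolynomial (Vr n) ℂ) = 0 := by
  have := v1_C (n := n) 1
  rwa [C_1] at this

private theorem pderiv_ne {n : ℕ} {v : Vr n} (h : v ≠ yv) :
    pderiv yv (X v : MvPolynomial (Vr n) ℂ) = 0 := by
  rw [pderiv_X_of_ne h]

theorem v1_X {n : ℕ} (v : Vr n) : v1 (X v : MvPolynomial (Vr n) ℂ) = 0 ∨ v1 (X v : MvPolynomial (Vr n) ℂ) = 1 := by
  unfold v1
  by_cases h : v = yv
  · right
    rw [h, pderiv_X_self, map_one]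
  · left
    rw [pderiv_ne h, map_zero]

private theorem v0_xv {n : ℕ} (i : Fin n) : v0 (X (xv i) : MvPolynomial (Vr n) ℂ) = 1 := by
  unfold v0
  rw [aeval_X]
  rfl

private theorem v0_yv {n : ℕ} : v0 (X (yv (n := n)) : MvPolynomial (Vr n) ℂ) = 0 := by
  unfold v0
  rw [aeval_X]
  rfl

private theorem v0_zv {n : ℕ} (i : Fin n) (j : Fin (n + 1)) :
    v0 (X (zv i j) : MvPolynomial (Vr n) ℂ) =
      Fin.cases (motive := fun _ => MvPolynomial (Fin n × Fin n) ℂ) 0 (fun k => X (i, k)) j := by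
  unfold v0
  rw [aeval_X]
  rfl

theorem v0_X {n : ℕ} (v : Vr n) : Bas (v0 (X v : MvPolynomial (Vr n) ℂ)) := by
  rcases v with (i | ⟨i, j⟩) | u
  · left
    exact ⟨1, by rw [C_1]; exact v0_xv i⟩
  · refine Fin.cases ?_ (fun k => ?_) j
    · left
      exact ⟨0, by rw [C_0]; exact v0_zv i 0⟩
    · right
      exact ⟨(i, k), v0_zv i k.succ⟩
  · left
    exact ⟨0, by rw [C_0]; exact v0_yv⟩

private theorem sqm_xv {n : ℕ} (i : Fin n) :
    sqm (X (xv i) : MvPolynomial (Vr n) ℂ) = X (xv i) ^ 2 := by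
  unfold sqm
  rw [aeval_X]
  rfl

private theorem sqm_zv {n : ℕ} (i : Fin n) (j : Fin (n + 1)) :
    sqm (X (zv i j) : MvPolynomial (Vr n) ℂ) = X (zv i j) := by
  unfold sqm
  rw [aeval_X]
  rfl

private theorem sqm_yv {n : ℕ} :
    sqm (X (yv (n := n)) : MvPolynomial (Vr n) ℂ) = X yv := by
  unfold sqm
  rw [aeval_X]
  rfl

private theorem v0_sqm {n : ℕ} (Q : MvPolynomial (Vr n) ℂ) : v0 (sqm Q) = v0 Q := by
  have h : (v0 (n := n)).comp sqm = v0 := by
    apply MvPolynomial.algHom_ext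
    rintro ((i | ⟨i, j⟩) | u)
    · show v0 (sqm (X (xv i))) = v0 (X (xv i))
      rw [sqm_xv, map_pow, v0_xv, one_pow]
    · show v0 (sqm (X (zv i j))) = v0 (X (zv i j))
      rw [sqm_zv]
    · show v0 (sqm (X yv)) = v0 (X yv)
      rw [sqm_yv]
  exact DFunLike.congr_fun h Q

private theorem pderiv_sqm_X {n : ℕ} (v : Vr n) :
    pderiv yv (sqm (X v : MvPolynomial (Vr n) ℂ)) = sqm (pderiv yv (X v)) := by
  rcases v with (i | ⟨i, j⟩) | u
  · have h1 : pderiv yv (X (xv i) : MvPolynomial (Vr n) ℂ) = 0 := pderiv_ne (by simp)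
    show pderiv yv (sqm (X (xv i))) = sqm (pderiv yv (X (xv i)))
    rw [sqm_xv, pow_two, pderiv_mul, h1]
    simp
  · have h1 : pderiv yv (X (zv i j) : MvPolynomial (Vr n) ℂ) = 0 := pderiv_ne (by simp)
    show pderiv yv (sqm (X (zv i j))) = sqm (pderiv yv (X (zv i j)))
    rw [sqm_zv, h1, map_zero]
  · show pderiv yv (sqm (X yv)) = sqm (pderiv yv (X yv))
    rw [sqm_yv, pderiv_X_self, map_one]

private theorem pderiv_sqm {n : ℕ} (Q : MvPolynomial (Vr n) ℂ) :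
    pderiv yv (sqm Q) = sqm (pderiv yv Q) := by
  induction Q using MvPolynomial.induction_on with
  | C a =>
    have h1 : sqm (C a : MvPolynomial (Vr n) ℂ) = C a := by
      unfold sqm
      rw [aeval_C]
      rfl
    rw [h1, pderiv_C, map_zero]
  | add p q hp hq => rw [map_add, map_add, map_add, map_add, hp, hq]
  | mul_X p v hp =>
    rw [map_mul, pderiv_mul, pderiv_mul, map_add, map_mul, map_mul, hp, pderiv_sqm_X]

private theorem v1_sqm {n : ℕ} (Q : MvPolynomial (Vr n) ℂ) : v1 (sqm Q) = v1 Q := by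
  unfold v1
  rw [pderiv_sqm, v0_sqm]

private theorem v0_lin {n : ℕ} (ε : Fin n → ℤˣ) : v0 (lin ε) = 1 := by
  unfold lin
  rw [map_sub, map_mul, map_one, v0_yv, zero_mul, sub_zero]

private theorem v0_int {n : ℕ} (a : ℤ) : v0 ((a : ℤ) : MvPolynomial (Vr n) ℂ) = (a : ℤ) := map_intCast v0 a

private theorem v0_q {n : ℕ} (ε : Fin n → ℤˣ) :
    v0 (q (fun i => ((ε i : ℤ) : MvPolynomial (Vr n) ℂ) * X (xv i)) fun i j => X (zv i j)) =
      (∏ i, ((ε i : ℤ) : MvPolynomial (Fin n × Fin n) ℂ)) *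
        ∏ i, ∑ j, (X (i, j) : MvPolynomial (Fin n × Fin n) ℂ) * ((ε j : ℤ) : MvPolynomial (Fin n × Fin n) ℂ) := by
  unfold q
  rw [map_mul, map_prod, map_prod]
  have h1 : ∀ i : Fin n, v0 (((ε i : ℤ) : MvPolynomial (Vr n) ℂ) * X (xv i)) =
      ((ε i : ℤ) : MvPolynomial (Fin n × Fin n) ℂ) := by
    intro i
    rw [map_mul, v0_int, v0_xv, mul_one]
  have h2 : ∀ i : Fin n, v0 ((X (zv i 0) : MvPolynomial (Vr n) ℂ) +
      ∑ j : Fin n, X (zv i j.succ) * (((ε j : ℤ) : MvPolynomial (Vr n) ℂ) * X (xv j))) =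
      ∑ j, (X (i, j) : MvPolynomial (Fin n × Fin n) ℂ) * ((ε j : ℤ) : MvPolynomial (Fin n × Fin n) ℂ) := by
    intro i
    rw [map_add, map_sum, v0_zv]
    have h3 : ∀ j : Fin n, v0 (X (zv i j.succ) * (((ε j : ℤ) : MvPolynomial (Vr n) ℂ) * X (xv j))) =
        (X (i, j) : MvPolynomial (Fin n × Fin n) ℂ) * ((ε j : ℤ) : MvPolynomial (Fin n × Fin n) ℂ) := by
      intro j
      rw [map_mul, h1, v0_zv]
      rfl
    rw [Finset.sum_congr rfl fun j _ => h3 j]
    exact zero_add _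
  rw [Finset.prod_congr rfl fun i _ => h1 i, Finset.prod_congr rfl fun i _ => h2 i]

private theorem v1_lin {n : ℕ} (ε : Fin n → ℤˣ) :
    v1 (lin ε) = -((∏ i, ((ε i : ℤ) : MvPolynomial (Fin n × Fin n) ℂ)) *
        ∏ i, ∑ j, (X (i, j) : MvPolynomial (Fin n × Fin n) ℂ) * ((ε j : ℤ) : MvPolynomial (Fin n × Fin n) ℂ)) := by
  have hy : v1 (X (yv (n := n)) : MvPolynomial (Vr n) ℂ) = 1 := by
    unfold v1
    rw [pderiv_X_self, map_one]
  unfold lin
  rw [v1_sub, v1_one, v1_mul, v0_yv, hy, v0_q]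
  ring

private theorem v0_prod {n : ℕ} (s : Finset (Fin n → ℤˣ)) : v0 (∏ ε ∈ s, lin ε) = 1 := by
  rw [map_prod]
  exact Finset.prod_eq_one fun ε _ => v0_lin ε

private theorem v1_prod {n : ℕ} (s : Finset (Fin n → ℤˣ)) :
    v1 (∏ ε ∈ s, lin ε) = ∑ ε ∈ s, v1 (lin ε) := by
  classical
  induction s using Finset.induction_on with
  | empty => rw [Finset.prod_empty, Finset.sum_empty, v1_one]
  | insert a s ha ih =>
    rw [Finset.prod_insert ha, Finset.sum_insert ha, v1_mul, v0_lin, v0_prod, ih]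
    ring

private theorem v1_PP (n : ℕ) : v1 (PP n) = -(2 ^ n * per n) := by
  unfold PP
  rw [v1_prod, Finset.sum_congr rfl fun ε _ => v1_lin ε, Finset.sum_neg_distrib]
  have h := glynn (R := MvPolynomial (Fin n × Fin n) ℂ) fun i j => X (i, j)
  rw [h]
  rfl

theorem v0_G {n : ℕ} {G : MvPolynomial (Vr n) ℂ} (hG : sqm G = PP n) : v0 G = 1 := by
  rw [← v0_sqm, hG]
  exact v0_prod _

theorem v1_G {n : ℕ} {G : MvPolynomial (Vr n) ℂ} (hG : sqm G = PP n) : v1 G = - (2 ^ n * per n) := by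
  rw [← v1_sqm, hG, v1_PP]

private theorem v1_pow {n : ℕ} {G : MvPolynomial (Vr n) ℂ} (hG : sqm G = PP n) (e : ℕ) :
    v1 (G ^ e) = -((e : MvPolynomial (Fin n × Fin n) ℂ) * (2 ^ n * per n)) := by
  induction e with
  | zero => rw [pow_zero, v1_one, Nat.cast_zero, zero_mul, neg_zero]
  | succ e ih =>
    rw [pow_succ, v1_mul, map_pow, v0_G hG, one_pow, ih, v1_G hG, Nat.cast_succ]
    ring

/-- the derivative of a power times a cofactor -/
theorem v1_pow_mul {n : ℕ} {G : MvPolynomial (Vr n) ℂ} (hG : sqm G = PP n) (e : ℕ) (h : MvPolynomial (Vr n) ℂ) :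
    v1 (G ^ e * h) = v1 h - C ((e : ℂ) * 2 ^ n) * (per n * v0 h) := by
  rw [v1_mul, map_pow, v0_G hG, one_pow, v1_pow hG]
  have hc : (C ((e : ℂ) * 2 ^ n) : MvPolynomial (Fin n × Fin n) ℂ) =
      (e : MvPolynomial (Fin n × Fin n) ℂ) * 2 ^ n := by
    rw [map_mul, map_pow, map_natCast, map_ofNat]
  rw [hc]
  ring

end Pool.Agent.IRG
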